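import Mathlib
import Pool.Agent.H27.Neumann

set_option autoImplicit false

open Filter Topology Finset

namespace Pool.Agent.Results.MP_18d2fb_an.NeumannSeries

/-- **Main theorem.** Over `𝕜 = ℝ` and over `𝕜 = ℂ` there is a Fréchet space `E`, a continuous linear
`U : E → E` such that `I - c U` is a bijection of `E` for *every* scalar `c`, but there is a vector
`x` for which the Neumann series `∑ cᵏ Uᵏ x` diverges for *every* `c ≠ 0`. -/
theorem result (𝕜 : Type) [RCLike 𝕜] :
    ∃ (E : Type) (_ : AddCommGroup E) (_ : Module 𝕜 E) (_ : UniformSpace E) (_ : IsUniformAddGroup E)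
      (p : ℕ → Seminorm 𝕜 E),
      Monotone p ∧ WithSeminorms p ∧ T2Space E ∧ CompleteSpace E ∧
      ∃ (U : E →L[𝕜] E) (x : E),
        (∀ c : 𝕜, Function.Bijective (fun v : E => v - c • U v)) ∧
        (∀ c : 𝕜, c ≠ 0 →
          ¬ ∃ y : E, Tendsto (fun N : ℕ => ∑ k ∈ range N, c ^ k • (U ^ k) x) atTop (𝓝 y)) :=
  ⟨H27.Neumann.E 𝕜, inferInstance, inferInstance, inferInstance, inferInstance, H27.Neumann.p,
    H27.Neumann.p_mono, H27.Neumann.hp, inferInstance, inferInstance, H27.Neumann.U, H27.Neumann.e₀,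
    H27.Neumann.bij, H27.Neumann.diverges⟩

end Pool.Agent.Results.MP_18d2fb_an.NeumannSeries
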